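import Pool.Agent.W336.CS.Stmts

set_option autoImplicit false

namespace Pool.Agent.W402.CS

open Pool.Agent.W336.CS Finset
open scoped Pointwise

/-- pieces of a selection `φ x ∈ {τ i x}` -/
lemma pieces {G : Type} [Group G] {n : ℕ} (τ : Fin n → G) (φ : G ⊕ G → G)
    (hφ : Function.Injective φ) (e : G → G ⊕ G) (he : Function.Injective e)
    (j : G → Fin n) (hj : ∀ x, φ (e x) = τ (j x) * x) :
    (∀ i k, i ≠ k → Disjoint {y | ∃ x, j x = i ∧ φ (e x) = y} {y | ∃ x, j x = k ∧ φ (e x) = y}) ∧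
    (⋃ i, (fun x : G => (τ i)⁻¹ * x) '' {y | ∃ x, j x = i ∧ φ (e x) = y}) = Set.univ := by
  constructor
  · intro i k hik
    rw [Set.disjoint_left]
    rintro y ⟨x, hx, hxy⟩ ⟨x', hx', hxy'⟩
    have := he (hφ (hxy.trans hxy'.symm))
    subst this
    exact hik (hx.symm.trans hx')
  · rw [Set.eq_univ_iff_forall]
    intro x
    rw [Set.mem_iUnion]
    refine ⟨j x, φ (e x), ⟨x, rfl, rfl⟩, ?_⟩
    simp [hj x]

theorem hall : S_hall := by
  classical
  intro G _ a b s δ hδ hexp
  let U : Finset G := {1, a, b}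
  let S1 : Finset G := {1, a, b, s}
  have h1 : ∀ B : Finset G, (1 + δ) * B.card ≤ ((S1 * B).card : ℝ) := by
    intro B
    have := hexp B B (S1 * B) subset_rfl
      (fun x hx => by
        have := Finset.mul_mem_mul (show (1 : G) ∈ S1 by simp [S1]) hx
        rwa [one_mul] at this)
      (fun x hx => ⟨Finset.mul_mem_mul (by simp [S1]) hx, Finset.mul_mem_mul (by simp [S1]) hx⟩)
      (fun x hx => Finset.mul_mem_mul (by simp [S1]) hx)
    linarith
  have h2 : ∀ (k : ℕ) (B : Finset G), (1 + δ) ^ k * B.card ≤ ((S1 ^ k * B).card : ℝ) := by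
    intro k
    induction k with
    | zero => intro B; simp
    | succ k ih =>
      intro B
      have h3 := h1 (S1 ^ k * B)
      rw [← mul_assoc, ← pow_succ'] at h3
      have h4 := ih B
      calc (1 + δ) ^ (k + 1) * B.card = (1 + δ) * ((1 + δ) ^ k * B.card) := by ring
        _ ≤ (1 + δ) * ((S1 ^ k * B).card : ℝ) := by
          apply mul_le_mul_of_nonneg_left h4; linarith
        _ ≤ _ := h3
  obtain ⟨k, hk⟩ : ∃ k : ℕ, 1 / δ < (1 + δ) ^ k := pow_unbounded_of_one_lt (1 / δ) (by linarith)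
  let T0 : Finset G := S1 ^ k
  have h3 : ∀ B : Finset G, (B.card : ℝ) ≤ δ * (T0 * B).card := by
    intro B
    have h4 := h2 k B
    have h5 : 1 ≤ δ * (1 + δ) ^ k := by
      rw [div_lt_iff₀ hδ] at hk
      linarith
    calc (B.card : ℝ) = 1 * B.card := by ring
      _ ≤ δ * (1 + δ) ^ k * B.card := by
        apply mul_le_mul_of_nonneg_right h5 (Nat.cast_nonneg _)
      _ = δ * ((1 + δ) ^ k * B.card) := by ring
      _ ≤ _ := mul_le_mul_of_nonneg_left h4 hδ.le
  let T : Finset G := U * T0 ∪ {s} * T0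
  have h4 : ∀ A B : Finset G, A.card + B.card ≤ (U * A ∪ T * B).card := by
    intro A B
    have hTB : ∀ u ∈ U, ∀ x ∈ T0 * B, u * x ∈ T * B := by
      intro u hu x hx
      obtain ⟨t, ht, y, hy, rfl⟩ := Finset.mem_mul.mp hx
      rw [← mul_assoc]
      exact Finset.mul_mem_mul (Finset.mem_union_left _ (Finset.mul_mem_mul hu ht)) hy
    have hUV : ∀ u ∈ U, ∀ x ∈ A ∪ T0 * B, u * x ∈ U * A ∪ T * B := by
      intro u hu x hx
      rcases Finset.mem_union.mp hx with hx | hx
      · exact Finset.mem_union_left _ (Finset.mul_mem_mul hu hx)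
      · exact Finset.mem_union_right _ (hTB u hu x hx)
    have h5 := hexp (T0 * B) (A ∪ T0 * B) (U * A ∪ T * B) Finset.subset_union_right
      (fun x hx => by
        have := hUV 1 (by simp [U]) x hx
        rwa [one_mul] at this)
      (fun x hx => ⟨hUV a (by simp [U]) x hx, hUV b (by simp [U]) x hx⟩)
      (fun x hx => by
        apply Finset.mem_union_right
        obtain ⟨t, ht, y, hy, rfl⟩ := Finset.mem_mul.mp hx
        rw [← mul_assoc]
        exact Finset.mul_mem_mul (Finset.mem_union_right _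
          (Finset.mul_mem_mul (Finset.mem_singleton_self s) ht)) hy)
    have h6 : (A.card : ℝ) ≤ (A ∪ T0 * B).card := by
      exact_mod_cast Finset.card_le_card Finset.subset_union_left
    have h7 := h3 B
    have h8 : (A.card : ℝ) + B.card ≤ ((U * A ∪ T * B).card : ℝ) := by linarith
    exact_mod_cast h8
  let r : G ⊕ G → Finset G := Sum.elim (fun x => U * {x}) (fun x => T * {x})
  have h5 : ∀ F : Finset (G ⊕ G), F.card ≤ (F.biUnion r).card := by
    intro F
    rw [← Finset.card_toLeft_add_card_toRight]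
    refine (h4 F.toLeft F.toRight).trans (Finset.card_le_card ?_)
    intro y hy
    rw [Finset.mem_biUnion]
    rcases Finset.mem_union.mp hy with hy | hy
    · obtain ⟨u, hu, x, hx, rfl⟩ := Finset.mem_mul.mp hy
      exact ⟨Sum.inl x, Finset.mem_toLeft.mp hx,
        Finset.mul_mem_mul hu (Finset.mem_singleton_self x)⟩
    · obtain ⟨u, hu, x, hx, rfl⟩ := Finset.mem_mul.mp hy
      exact ⟨Sum.inr x, Finset.mem_toRight.mp hx,
        Finset.mul_mem_mul hu (Finset.mem_singleton_self x)⟩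
  obtain ⟨φ, hφ, hφr⟩ := (Finset.all_card_le_biUnion_card_iff_exists_injective r).mp h5
  let t : Fin 3 → G := ![1, a, b]
  let τ : Fin T.card → G := fun i => (T.equivFin.symm i : G)
  have hi : ∀ x : G, ∃ i : Fin 3, φ (Sum.inl x) = t i * x := by
    intro x
    have := hφr (Sum.inl x)
    obtain ⟨u, hu, y, hy, hxy⟩ := Finset.mem_mul.mp this
    rw [Finset.mem_singleton] at hy
    subst hy
    rw [← hxy]
    have hu' : u = 1 ∨ u = a ∨ u = b := by simpa [U] using hu
    rcases hu' with rfl | rfl | rfl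
    · exact ⟨0, rfl⟩
    · exact ⟨1, rfl⟩
    · exact ⟨2, rfl⟩
  have hj : ∀ x : G, ∃ i : Fin T.card, φ (Sum.inr x) = τ i * x := by
    intro x
    have := hφr (Sum.inr x)
    obtain ⟨u, hu, y, hy, hxy⟩ := Finset.mem_mul.mp this
    rw [Finset.mem_singleton] at hy
    subst hy
    rw [← hxy]
    exact ⟨T.equivFin ⟨u, hu⟩, by simp [τ]⟩
  choose i hi using hi
  choose j hj using hj
  obtain ⟨p1, p2⟩ := pieces t φ hφ Sum.inl Sum.inl_injective i hi
  obtain ⟨q1, q2⟩ := pieces τ φ hφ Sum.inr Sum.inr_injective j hj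
  refine ⟨T.card, _, _, fun k => (t k)⁻¹, fun k => (τ k)⁻¹, p1, q1, ?_, p2, q2⟩
  intro k l
  rw [Set.disjoint_left]
  rintro y ⟨x, -, hxy⟩ ⟨x', -, hxy'⟩
  have := hφ (hxy.trans hxy'.symm)
  exact absurd this (by simp)

end Pool.Agent.W402.CS
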