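import Pool.Agent.W336.CS.Stmts

set_option autoImplicit false

namespace Pool.Agent.W402.CS

open Pool.Agent.W336.CS

lemma two_pieces {G : Type} [Group G] (ht : Monoid.IsTorsion G) (A₀ A₁ : Set G) (g₀ g₁ : G)
    (hd : Disjoint A₀ A₁)
    (hu : ∀ x : G, (∃ a ∈ A₀, g₀ * a = x) ∨ (∃ a ∈ A₁, g₁ * a = x)) (x : G) :
    x ∈ A₀ ∨ x ∈ A₁ := by
  by_contra hx
  push Not at hx
  set c := g₀⁻¹ * g₁ with hc
  have h1 : ∀ y : G, y ∉ A₀ → c⁻¹ * y ∈ A₁ := by
    intro y hy
    rcases hu (g₀ * y) with ⟨a, ha, h⟩ | ⟨a, ha, h⟩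
    · exact absurd (mul_left_cancel h ▸ ha) hy
    · have : c⁻¹ * y = a := by
        rw [hc, mul_inv_rev, inv_inv, mul_assoc, ← h, inv_mul_cancel_left]
      rw [this]; exact ha
  have h2 : ∀ j : ℕ, (c⁻¹) ^ (j + 1) * x ∈ A₁ := by
    intro j
    induction j with
    | zero => simpa using h1 x hx.1
    | succ j ih =>
      have h3 := h1 _ (fun h => Set.disjoint_left.mp hd h ih)
      rwa [← mul_assoc, ← pow_succ'] at h3
  have h3 := (ht c⁻¹).orderOf_pos
  have h4 := h2 (orderOf c⁻¹ - 1)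
  rw [Nat.sub_add_cancel h3, pow_orderOf_eq_one, one_mul] at h4
  exact hx.2 h4

lemma no_two {G : Type} [Group G] (ht : Monoid.IsTorsion G) (m n : ℕ) (hm : m ≤ 2)
    (P : Fin m → Set G) (Q : Fin n → Set G) (g : Fin m → G) (h : Fin n → G)
    (hPP : ∀ i j, i ≠ j → Disjoint (P i) (P j))
    (hPQ : ∀ i j, Disjoint (P i) (Q j))
    (hP : (⋃ i, (fun x : G => g i * x) '' P i) = Set.univ)
    (hQ : (⋃ j, (fun x : G => h j * x) '' Q j) = Set.univ) : False := by
  have hPu : ∀ x : G, ∃ i, ∃ a ∈ P i, g i * a = x := by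
    intro x
    have : x ∈ (⋃ i, (fun x : G => g i * x) '' P i) := by rw [hP]; trivial
    exact Set.mem_iUnion.mp this
  have hQu : ∀ x : G, ∃ i, ∃ a ∈ Q i, h i * a = x := by
    intro x
    have : x ∈ (⋃ i, (fun x : G => h i * x) '' Q i) := by rw [hQ]; trivial
    exact Set.mem_iUnion.mp this
  obtain ⟨j, a, ha, -⟩ := hQu 1
  have key : ∃ i, a ∈ P i := by
    interval_cases m
    · exact (hPu 1).choose.elim0
    · have := two_pieces ht (P 0) ∅ (g 0) 1 (Set.disjoint_empty _) (by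
        intro x
        obtain ⟨i, b, hb, hx⟩ := hPu x
        have : i = 0 := Subsingleton.elim _ _
        subst this
        exact Or.inl ⟨b, hb, hx⟩) a
      rcases this with h | h
      · exact ⟨0, h⟩
      · exact absurd h (by simp)
    · have := two_pieces ht (P 0) (P 1) (g 0) (g 1) (hPP 0 1 (by decide)) (by
        intro x
        obtain ⟨i, b, hb, hx⟩ := hPu x
        fin_cases i
        · exact Or.inl ⟨b, hb, hx⟩
        · exact Or.inr ⟨b, hb, hx⟩) a
      rcases this with h | h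
      · exact ⟨0, h⟩
      · exact ⟨1, h⟩
  obtain ⟨i, hi⟩ := key
  exact Set.disjoint_left.mp (hPQ i j) hi ha

theorem lower : S_lower := by
  rintro G _ ht m n ⟨P, Q, g, h, hPP, hQQ, hPQ, hP, hQ⟩
  refine le_min ?_ ?_
  · by_contra hm
    exact no_two ht m n (by omega) P Q g h hPP hPQ hP hQ
  · by_contra hm
    exact no_two ht n m (by omega) Q P h g hQQ (fun i j => (hPQ j i).symm) hQ hP

end Pool.Agent.W402.CS
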