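import Pool.Agent.W336.CS.Stmts

set_option autoImplicit false

namespace Pool.Agent.W402.CS

open Pool.Agent.W336.CS

/-- elements conjugating a nontrivial element into a finite set -/
lemma conj_finite {H : Type} [Group H] (hC : FinCent H) {x : H} (hx : x ≠ 1) {E : Set H}
    (hE : E.Finite) : {n : H | n * x * n⁻¹ ∈ E}.Finite := by
  apply Set.Finite.of_finite_fibers (fun n : H => n * x * n⁻¹)
  · apply hE.subset
    rintro _ ⟨n, hn, rfl⟩
    exact hn
  · rintro _ ⟨n₀, hn₀, rfl⟩
    apply ((hC x hx).image (fun z => n₀ * z)).subset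
    rintro n ⟨hn, hn2⟩
    simp only [Set.mem_preimage, Set.mem_singleton_iff] at hn2
    refine ⟨n₀⁻¹ * n, ?_, by group⟩
    change n₀⁻¹ * n * x = x * (n₀⁻¹ * n)
    have h1 : n * x = n₀ * x * n₀⁻¹ * n := by
      rw [← hn2]; group
    rw [mul_assoc, h1]
    group

lemma acc {H : Type} [Group H] (hL : NoInfLF H) :
    WellFoundedGT {E : Subgroup H // (E : Set H).Finite} := by
  rw [wellFoundedGT_iff_monotone_chain_condition]
  intro a
  have hdir : Directed (· ≤ ·) (fun n => (a n).1) := by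
    intro i j
    exact ⟨max i j, a.monotone (le_max_left _ _), a.monotone (le_max_right _ _)⟩
  have hmem : ∀ x, x ∈ (⨆ n, (a n).1) ↔ ∃ n, x ∈ (a n).1 := fun x =>
    Subgroup.mem_iSup_of_directed hdir
  have hfs : ∀ s : Set H, s.Finite → s ⊆ (⨆ n, (a n).1 : Subgroup H) → ∃ n, s ⊆ (a n).1 := by
    intro s hs hsub
    induction s, hs using Set.Finite.induction_on with
    | empty => exact ⟨0, Set.empty_subset _⟩
    | @insert x s _ _ ih =>
      obtain ⟨n, hn⟩ := ih ((Set.subset_insert _ _).trans hsub)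
      obtain ⟨k, hk⟩ := (hmem x).mp (hsub (Set.mem_insert _ _))
      refine ⟨max n k, Set.insert_subset ?_ ?_⟩
      · exact a.monotone (le_max_right n k) hk
      · exact hn.trans (a.monotone (le_max_left n k))
  have hfin : ((⨆ n, (a n).1 : Subgroup H) : Set H).Finite := by
    apply hL
    intro s hs
    obtain ⟨n, hn⟩ := hfs s s.finite_toSet hs
    exact (a n).2.subset ((Subgroup.closure_le _).mpr hn)
  obtain ⟨n, hn⟩ := hfs _ hfin subset_rfl
  refine ⟨n, fun m hm => le_antisymm (a.monotone hm) ?_⟩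
  intro x hx
  exact hn ((hmem x).mpr ⟨m, hx⟩)

theorem stab' : S_stab := by
  intro H _ hF hC hL c Y hc hY
  have hwf := acc hL
  set W : H → Subgroup H := fun y => Subgroup.closure ({c, y} : Set H) with hW
  have hcW : ∀ y, c ∈ W y := fun y => Subgroup.subset_closure (by simp)
  have hyW : ∀ y, y ∈ W y := fun y => Subgroup.subset_closure (by simp)
  let P : Set {E : Subgroup H // (E : Set H).Finite} :=
    {E | c ∈ E.1 ∧ {y ∈ Y | E.1 ≤ W y}.Infinite}
  have hP : P.Nonempty := by
    have hz : (Subgroup.zpowers c : Set H).Finite :=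
      (hF c c).subset (by
        intro x hx
        have : Subgroup.zpowers c ≤ Subgroup.closure ({c, c} : Set H) := by
          rw [Subgroup.zpowers_le]; exact Subgroup.subset_closure (by simp)
        exact this hx)
    refine ⟨⟨Subgroup.zpowers c, hz⟩, Subgroup.mem_zpowers c, ?_⟩
    apply hY.mono
    intro y hy
    exact ⟨hy, by rw [Subgroup.zpowers_le]; exact hcW y⟩
  obtain ⟨⟨E, hEf⟩, ⟨hcE, hJ⟩, hmax⟩ := hwf.wf.has_min P hP
  simp only at hcE hJ
  set J := {y ∈ Y | E ≤ W y} with hJdef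
  have key : ∀ x, x ∉ E → {y ∈ J | x ∈ W y}.Finite := by
    intro x hx
    by_contra hinf
    have hinf' : {y ∈ J | x ∈ W y}.Infinite := hinf
    obtain ⟨y₀, hy₀⟩ := hinf'.nonempty
    have hle : ∀ y ∈ {y ∈ J | x ∈ W y}, E ⊔ Subgroup.zpowers x ≤ W y := by
      intro y hy
      exact sup_le hy.1.2 (by rw [Subgroup.zpowers_le]; exact hy.2)
    have hfin : ((E ⊔ Subgroup.zpowers x : Subgroup H) : Set H).Finite :=
      (hF c y₀).subset (hle y₀ hy₀)
    refine hmax ⟨E ⊔ Subgroup.zpowers x, hfin⟩ ⟨(le_sup_left : E ≤ _) hcE, ?_⟩ ?_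
    · apply hinf'.mono
      intro y hy
      exact ⟨hy.1.1, hle y hy⟩
    · change E < E ⊔ Subgroup.zpowers x
      refine lt_of_le_of_ne le_sup_left ?_
      intro h
      apply hx
      rw [h]
      exact (le_sup_right : Subgroup.zpowers x ≤ _) (Subgroup.mem_zpowers x)
  set T : Set H := ⋃ x ∈ {x : H | x ∈ E ∧ x ≠ 1}, {n : H | n * x * n⁻¹ ∈ (E : Set H)} with hT
  have hTf : T.Finite := by
    apply Set.Finite.biUnion (hEf.subset (fun x hx => hx.1))
    intro x hx
    exact conj_finite hC hx.2 hEf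
  set bad : Set H := (E : Set H) ∪ ⋃ n ∈ T \ (E : Set H), {y ∈ J | n ∈ W y} with hbad
  have hbf : bad.Finite := by
    apply hEf.union
    apply Set.Finite.biUnion (hTf.subset Set.sdiff_subset)
    intro n hn
    exact key n hn.2
  refine ⟨J \ bad, fun y hy => hy.1.1, hJ.sdiff hbf, E, hEf, hcE, ?_⟩
  intro y hy
  refine ⟨lt_of_le_of_ne hy.1.2 ?_, ?_⟩
  · intro h
    apply hy.2
    left
    change y ∈ E
    rw [h]
    exact hyW y
  · intro w hw x hx hx1 hwx
    by_contra hwE
    apply hy.2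
    right
    simp only [Set.mem_iUnion]
    refine ⟨w, ⟨?_, hwE⟩, hy.1, hw⟩
    rw [hT]
    simp only [Set.mem_iUnion]
    exact ⟨x, ⟨hx, hx1⟩, hwx⟩

theorem stab : S_mal → S_stab := fun _ => stab'

end Pool.Agent.W402.CS
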